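import Pool.Agent.W546.N4.Defs
set_option autoImplicit false

open Complex MeasureTheory Set Filter Topology

namespace Pool.Agent.W12.N4

open Pool.Agent.W546.N4

/-! ### Parseval -/

lemma int_exp (j k : ℕ) : ∫ a in (0 : ℝ)..Real.pi, cexp (2 * I * a * j) * cexp (-(2 * I * a * k)) =
    if j = k then (Real.pi : ℂ) else 0 := by
  by_cases h : j = k
  · subst h
    rw [if_pos rfl]
    have : ∀ a : ℝ, cexp (2 * I * a * j) * cexp (-(2 * I * a * j)) = 1 := by
      intro a
      rw [← Complex.exp_add]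
      simp
    simp only [this]
    simp
  · rw [if_neg h]
    have hc : (2 * I * ((j : ℂ) - k)) ≠ 0 := by
      apply mul_ne_zero (mul_ne_zero two_ne_zero I_ne_zero)
      intro h0
      apply h
      have : (j : ℂ) = k := by linear_combination h0
      exact_mod_cast this
    have e : ∀ a : ℝ, cexp (2 * I * a * j) * cexp (-(2 * I * a * k)) =
        cexp (2 * I * ((j : ℂ) - k) * a) := by
      intro a
      rw [← Complex.exp_add]
      congr 1
      ring
    simp only [e]
    rw [integral_exp_mul_complex hc]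
    have e1 : cexp (2 * I * ((j : ℂ) - k) * (Real.pi : ℂ)) = 1 := by
      have : 2 * I * ((j : ℂ) - k) * (Real.pi : ℂ) = (((j : ℤ) - (k : ℤ) : ℤ) : ℂ) * (2 * Real.pi * I) := by
        push_cast; ring
      rw [this, Complex.exp_int_mul_two_pi_mul_I]
    rw [e1]
    simp

lemma norm_e (a : ℝ) (j : ℕ) : ‖cexp (2 * I * a * j)‖ = 1 := by
  have : 2 * I * (a : ℂ) * j = ((2 * a * j : ℝ) : ℂ) * I := by push_cast; ring
  rw [this, Complex.norm_exp_ofReal_mul_I]

lemma norm_e' (a : ℝ) (j : ℕ) : ‖cexp (-(2 * I * a * j))‖ = 1 := by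
  have : -(2 * I * (a : ℂ) * j) = ((-(2 * a * j) : ℝ) : ℂ) * I := by push_cast; ring
  rw [this, Complex.norm_exp_ofReal_mul_I]

lemma conj_e (a : ℝ) (j : ℕ) : (starRingEnd ℂ) (cexp (2 * I * a * j)) = cexp (-(2 * I * a * j)) := by
  rw [← Complex.exp_conj]
  congr 1
  rw [map_mul, map_mul, map_mul, Complex.conj_ofReal, Complex.conj_I, map_natCast]
  have : (starRingEnd ℂ) 2 = 2 := map_ofNat _ 2
  rw [this]
  ring

lemma parseval (c : ℕ → ℝ) (hc : Summable (fun n => |c n|)) (F : ℝ → ℂ)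
    (hF : ∀ a : ℝ, HasSum (fun n => (c n : ℂ) * cexp (2 * I * a * n)) (F a)) :
    HasSum (fun n => c n ^ 2) ((1 / Real.pi) * ∫ a in (0 : ℝ)..Real.pi, ‖F a‖ ^ 2) := by
  have hsum2 : Summable (fun x : ℕ × ℕ => |c x.1| * |c x.2|) :=
    hc.mul_of_nonneg hc (fun _ => abs_nonneg _) (fun _ => abs_nonneg _)
  have hG : ∀ a : ℝ, HasSum (fun n => (c n : ℂ) * cexp (-(2 * I * a * n)))
      ((starRingEnd ℂ) (F a)) := by
    intro a
    have h1 : HasSum ((starRingEnd ℂ) ∘ fun n => (c n : ℂ) * cexp (2 * I * a * n))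
        ((starRingEnd ℂ) (F a)) := (hF a).map (starRingEnd ℂ) Complex.continuous_conj
    refine h1.congr_fun ?_
    intro n
    simp only [Function.comp, map_mul, Complex.conj_ofReal, conj_e]
  have hprod : ∀ a : ℝ, HasSum (fun x : ℕ × ℕ => ((c x.1 : ℂ) * cexp (2 * I * a * x.1)) *
      ((c x.2 : ℂ) * cexp (-(2 * I * a * x.2)))) (F a * (starRingEnd ℂ) (F a)) := by
    intro a
    have hs : Summable (fun x : ℕ × ℕ => ((c x.1 : ℂ) * cexp (2 * I * a * x.1)) *
        ((c x.2 : ℂ) * cexp (-(2 * I * a * x.2)))) := by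
      refine Summable.of_norm ?_
      refine hsum2.congr (fun x => ?_)
      rw [norm_mul, norm_mul, norm_mul, norm_e, norm_e', Complex.norm_real, Complex.norm_real]
      simp
    exact HasSum.mul (f := fun n : ℕ => (c n : ℂ) * cexp (2 * I * a * n))
      (g := fun n : ℕ => (c n : ℂ) * cexp (-(2 * I * a * n))) (hF a) (hG a) hs
  have hint := intervalIntegral.hasSum_integral_of_dominated_convergence (μ := volume)
    (a := (0 : ℝ)) (b := Real.pi)
    (F := fun (x : ℕ × ℕ) (a : ℝ) => ((c x.1 : ℂ) * cexp (2 * I * a * x.1)) *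
      ((c x.2 : ℂ) * cexp (-(2 * I * a * x.2))))
    (f := fun a => F a * (starRingEnd ℂ) (F a)) (fun x _ => |c x.1| * |c x.2|)
    (fun x => (by fun_prop : Continuous fun a : ℝ => ((c x.1 : ℂ) * cexp (2 * I * a * x.1)) *
      ((c x.2 : ℂ) * cexp (-(2 * I * a * x.2)))).aestronglyMeasurable)
    (fun x => Eventually.of_forall fun a _ => by
      rw [norm_mul, norm_mul, norm_mul, norm_e, norm_e', Complex.norm_real, Complex.norm_real]
      simp)
    (Eventually.of_forall fun a _ => hsum2) (by simp)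
    (Eventually.of_forall fun a _ => hprod a)
  have hval : ∀ x : ℕ × ℕ, ∫ a in (0 : ℝ)..Real.pi, ((c x.1 : ℂ) * cexp (2 * I * a * x.1)) *
      ((c x.2 : ℂ) * cexp (-(2 * I * a * x.2))) =
      if x.1 = x.2 then ((Real.pi * c x.1 ^ 2 : ℝ) : ℂ) else 0 := by
    intro x
    have e : ∀ a : ℝ, ((c x.1 : ℂ) * cexp (2 * I * a * x.1)) *
      ((c x.2 : ℂ) * cexp (-(2 * I * a * x.2))) =
      ((c x.1 : ℂ) * c x.2) * (cexp (2 * I * a * x.1) * cexp (-(2 * I * a * x.2))) := by
      intro a; ring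
    simp only [e]
    rw [intervalIntegral.integral_const_mul, int_exp]
    by_cases h : x.1 = x.2
    · rw [if_pos h, if_pos h, ← h]; push_cast; ring
    · rw [if_neg h, if_neg h, mul_zero]
  simp only [hval] at hint
  have hinj : Function.Injective (fun n : ℕ => (n, n)) := fun a b h => (Prod.mk.inj h).1
  have hd := (hinj.hasSum_iff (f := fun x : ℕ × ℕ =>
      if x.1 = x.2 then ((Real.pi * c x.1 ^ 2 : ℝ) : ℂ) else 0)
      (a := ∫ a in (0 : ℝ)..Real.pi, F a * (starRingEnd ℂ) (F a)) (by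
    rintro ⟨j, k⟩ hx
    rw [if_neg]
    intro h
    apply hx
    exact ⟨j, by simp only at h; rw [h]⟩)).mpr hint
  have hint2 : ∫ a in (0 : ℝ)..Real.pi, F a * (starRingEnd ℂ) (F a) =
      ((∫ a in (0 : ℝ)..Real.pi, ‖F a‖ ^ 2 : ℝ) : ℂ) := by
    rw [← intervalIntegral.integral_ofReal]
    apply intervalIntegral.integral_congr
    intro a _
    simp only
    rw [Complex.mul_conj, Complex.normSq_eq_norm_sq]
  rw [hint2] at hd
  have hd2 : HasSum (fun n : ℕ => Real.pi * c n ^ 2) (∫ a in (0 : ℝ)..Real.pi, ‖F a‖ ^ 2) := by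
    rw [← Complex.hasSum_ofReal]
    refine hd.congr_fun ?_
    intro n
    simp
  have := hd2.mul_left (1 / Real.pi)
  refine this.congr_fun ?_
  intro n
  field_simp

/-! ### the binomial series -/

lemma choose_bc (p : ℝ) (k : ℕ) : Ring.choose (p : ℂ) k = (bc p k : ℂ) := by
  induction k with
  | zero => simp [bc]
  | succ k ih =>
    have h1 := Ring.descPochhammer_eq_factorial_smul_choose (p : ℂ) (k + 1)
    have h2 := Ring.descPochhammer_eq_factorial_smul_choose (p : ℂ) k
    rw [descPochhammer_succ_right, Polynomial.smeval_mul, h2, ih] at h1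
    simp only [Polynomial.smeval_sub, Polynomial.smeval_X, Polynomial.smeval_natCast, pow_one,
      pow_zero, nsmul_eq_mul, mul_one] at h1
    rw [Nat.factorial_succ] at h1
    push_cast at h1
    have hf : (k.factorial : ℂ) ≠ 0 := by exact_mod_cast k.factorial_ne_zero
    have hk : ((k : ℂ) + 1) ≠ 0 := by exact_mod_cast Nat.succ_ne_zero k
    simp only [bc]
    push_cast
    rw [eq_div_iff hk]
    apply mul_left_cancel₀ hf
    linear_combination -h1

lemma binom_sum (p : ℝ) (w : ℂ) (hw : ‖w‖ < 1) :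
    HasSum (fun n : ℕ => (bc p n : ℂ) * w ^ n) ((1 + w) ^ (p : ℂ)) := by
  have h := (Complex.one_add_cpow_hasFPowerSeriesOnBall_zero (a := (p : ℂ))).hasSum (y := w) (by
    rw [← ENNReal.ofReal_one, Metric.eball_ofReal]
    simpa using hw)
  rw [zero_add] at h
  refine h.congr_fun ?_
  intro n
  rw [binomialSeries_apply, choose_bc]
  simp

lemma hh_id {y : ℝ} (_h0 : 0 ≤ y) (_h1 : y < 1) (a : ℝ) :
    2 * (1 + y ^ 2) * Pool.Agent.W546.ST.hh ((1 - y) ^ 2 / (2 * (1 + y ^ 2))) a =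
      ‖(1 : ℂ) + -(y : ℂ) * cexp (2 * I * a)‖ ^ 2 := by
  have e1 : (1 : ℂ) + -(y : ℂ) * cexp (2 * I * a) =
      ⟨1 - y * Real.cos (2 * a), -(y * Real.sin (2 * a))⟩ := by
    have : cexp (2 * I * a) = ⟨Real.cos (2 * a), Real.sin (2 * a)⟩ := by
      have h : 2 * I * (a : ℂ) = ((2 * a : ℝ) : ℂ) * I := by push_cast; ring
      rw [h, Complex.exp_mul_I, ← Complex.ofReal_cos, ← Complex.ofReal_sin]
      apply Complex.ext
      · rw [Complex.add_re, Complex.ofReal_re, Complex.mul_re, Complex.ofReal_re, Complex.ofReal_im,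
          Complex.I_re]
        ring
      · rw [Complex.add_im, Complex.ofReal_im, Complex.mul_im, Complex.ofReal_re, Complex.ofReal_im,
          Complex.I_im, Complex.I_re]
        ring
    rw [this]
    apply Complex.ext
    · simp; ring
    · simp
  rw [e1, Complex.sq_norm, Complex.normSq_mk]
  unfold Pool.Agent.W546.ST.hh
  have hs : Real.sin a ^ 2 = (1 - Real.cos (2 * a)) / 2 := by
    rw [Real.cos_two_mul, ← Real.sin_sq_add_cos_sq a]
    have := Real.sin_sq_add_cos_sq a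
    linarith
  have hc : Real.sin (2 * a) ^ 2 = 1 - Real.cos (2 * a) ^ 2 := by
    have := Real.sin_sq_add_cos_sq (2 * a)
    linarith
  have hM : (1 + y ^ 2) ≠ 0 := by positivity
  rw [hs]
  have e2 : -(y * Real.sin (2 * a)) * -(y * Real.sin (2 * a)) = y ^ 2 * Real.sin (2 * a) ^ 2 := by
    ring
  rw [e2, hc]
  field_simp
  ring

lemma series (p : ℝ) {y : ℝ} (h0 : 0 ≤ y) (h1 : y < 1) :
    HasSum (fun k => bc p k ^ 2 * (y ^ 2) ^ k)
      ((1 / Real.pi) * ∫ a in (0 : ℝ)..Real.pi,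
        (‖(1 : ℂ) + -(y : ℂ) * cexp (2 * I * a)‖ ^ p) ^ 2) := by
  have hn : ∀ a : ℝ, ‖-(y : ℂ) * cexp (2 * I * a)‖ = y := by
    intro a
    have := norm_e a 1
    rw [Nat.cast_one, mul_one] at this
    rw [norm_mul, this, norm_neg, Complex.norm_real, Real.norm_of_nonneg h0, mul_one]
  have hF : ∀ a : ℝ, HasSum (fun n : ℕ => ((bc p n * (-y) ^ n : ℝ) : ℂ) * cexp (2 * I * a * n))
      (((1 : ℂ) + -(y : ℂ) * cexp (2 * I * a)) ^ (p : ℂ)) := by
    intro a
    have := binom_sum p (-(y : ℂ) * cexp (2 * I * a)) (by rw [hn]; exact h1)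
    refine this.congr_fun ?_
    intro n
    rw [mul_pow, ← Complex.exp_nat_mul]
    push_cast
    rw [mul_assoc]
    congr 3
    ring
  have hc : Summable (fun n : ℕ => |bc p n * (-y) ^ n|) := by
    have h := (binom_sum p (y : ℂ) (by
      rw [Complex.norm_real, Real.norm_of_nonneg h0]; exact h1)).summable.norm
    refine h.congr (fun n => ?_)
    rw [norm_mul, norm_pow, Complex.norm_real, Complex.norm_real, abs_mul, abs_pow, abs_neg]
    rfl
  have := parseval _ hc _ hF
  simp only [Complex.norm_cpow_real] at this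
  refine this.congr_fun ?_
  intro n
  rw [mul_pow, ← pow_mul (-y), mul_comm n 2, pow_mul (-y), neg_sq]

theorem SER : St4_SER := by
  intro y h0 h1
  set l : ℝ := (1 - y) ^ 2 / (2 * (1 + y ^ 2)) with hl
  have hpos : ∀ a : ℝ, 0 < ‖(1 : ℂ) + -(y : ℂ) * cexp (2 * I * a)‖ := by
    intro a
    rw [norm_pos_iff]
    intro h
    have hn : ‖-(y : ℂ) * cexp (2 * I * a)‖ = y := by
      have := norm_e a 1
      rw [Nat.cast_one, mul_one] at this
      rw [norm_mul, this, norm_neg, Complex.norm_real, Real.norm_of_nonneg h0, mul_one]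
    have : -(y : ℂ) * cexp (2 * I * a) = -1 := by linear_combination h
    rw [this, norm_neg, norm_one] at hn
    linarith
  have hM : 0 < 2 * (1 + y ^ 2) := by positivity
  have hid : ∀ a : ℝ, 2 * (1 + y ^ 2) * Pool.Agent.W546.ST.hh l a =
      ‖(1 : ℂ) + -(y : ℂ) * cexp (2 * I * a)‖ ^ 2 := fun a => hh_id h0 h1 a
  have hhp : ∀ a : ℝ, 0 < Pool.Agent.W546.ST.hh l a := by
    intro a
    have h2 : 0 < 2 * (1 + y ^ 2) * Pool.Agent.W546.ST.hh l a := by
      rw [hid]; exact pow_pos (hpos a) 2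
    exact (mul_pos_iff_of_pos_left hM).mp h2
  constructor
  · have hs := series (3 / 2) h0 h1
    convert hs using 1
    unfold Pool.Agent.W546.ST.Eq Pool.Agent.W546.ST.mn
    rw [mul_assoc, ← intervalIntegral.integral_mul_const]
    congr 1
    apply intervalIntegral.integral_congr
    intro a _
    simp only [Pool.Agent.W546.ST.hq, pow_zero, div_one]
    rw [← Real.sqrt_mul (pow_nonneg (hhp a).le 3), ← mul_pow, mul_comm (Pool.Agent.W546.ST.hh l a), hid]
    have hr := hpos a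
    set r := ‖(1 : ℂ) + -(y : ℂ) * cexp (2 * I * a)‖
    have e1 : (r ^ 2) ^ 3 = (r ^ 3) ^ 2 := by ring
    rw [e1, Real.sqrt_sq (by positivity), ← Real.rpow_natCast (r ^ (3 / 2 : ℝ)) 2,
      ← Real.rpow_mul hr.le, ← Real.rpow_natCast r 3]
    norm_num
  · have hs := series (1 / 2) h0 h1
    convert hs using 1
    unfold Pool.Agent.W546.ST.Eq Pool.Agent.W546.ST.mn
    rw [mul_assoc, ← intervalIntegral.integral_mul_const]
    congr 1
    apply intervalIntegral.integral_congr
    intro a _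
    simp only [Pool.Agent.W546.ST.hq, pow_one]
    have hr := hpos a
    have e0 : Real.sqrt (Pool.Agent.W546.ST.hh l a ^ 3) / Pool.Agent.W546.ST.hh l a =
        Real.sqrt (Pool.Agent.W546.ST.hh l a) := by
      rw [div_eq_iff (hhp a).ne']
      have : Pool.Agent.W546.ST.hh l a ^ 3 = Pool.Agent.W546.ST.hh l a * Pool.Agent.W546.ST.hh l a ^ 2 := by ring
      rw [this, Real.sqrt_mul (hhp a).le, Real.sqrt_sq (hhp a).le]
    rw [e0, ← Real.sqrt_mul (hhp a).le, mul_comm (Pool.Agent.W546.ST.hh l a), hid]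
    set r := ‖(1 : ℂ) + -(y : ℂ) * cexp (2 * I * a)‖
    rw [Real.sqrt_sq hr.le, ← Real.rpow_natCast (r ^ (1 / 2 : ℝ)) 2,
      ← Real.rpow_mul hr.le]
    norm_num

end Pool.Agent.W12.N4
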